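import Mathlib

set_option autoImplicit false

namespace Pool.Agent.Results.MP_7875f2_co.Sat

open SimpleGraph

def core : Finset (ℕ × ℕ) :=
  {(0, 2), (1, 0), (1, 4), (2, 0), (2, 1), (2, 2), (2, 3), (2, 4), (3, 1), (3, 4), (4, 2), (4, 3),
    (4, 4)}

def R (i j : ℕ) : Prop := (i, j) ∈ core ∨ (5 ≤ i ∧ j = 3) ∨ (i = 0 ∧ 5 ≤ j)

instance (i j : ℕ) : Decidable (R i j) := by unfold R; infer_instance

def Ad {m n : ℕ} : Fin m ⊕ Fin n → Fin m ⊕ Fin n → Prop
  | .inl i, .inr j => R i j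
  | .inr j, .inl i => R i j
  | _, _ => False

def H (m n : ℕ) : SimpleGraph (Fin m ⊕ Fin n) where
  Adj := Ad
  symm := ⟨fun u v h => by cases u <;> cases v <;> exact h⟩
  loopless := ⟨fun v h => by cases v <;> exact h⟩

lemma core_lt : ∀ p ∈ core, p.1 < 5 ∧ p.2 < 5 := by decide

lemma R_min (i j : ℕ) : R (min i 5) (min j 5) ↔ R i j := by
  unfold R
  have h1 := core_lt (i, j)
  have h2 := core_lt (min i 5, min j 5)
  simp only at h1 h2
  constructor
  · rintro (h | h | h)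
    · have := h2 h
      rw [show min i 5 = i by omega, show min j 5 = j by omega] at h
      exact Or.inl h
    · exact Or.inr (Or.inl (by omega))
    · exact Or.inr (Or.inr (by omega))
  · rintro (h | h | h)
    · have := h1 h
      rw [show min i 5 = i by omega, show min j 5 = j by omega]
      exact Or.inl h
    · exact Or.inr (Or.inl (by omega))
    · exact Or.inr (Or.inr (by omega))

lemma leafA {i j j' : ℕ} (h : R i j) (h' : R i j') (hne : j ≠ j') : i < 5 := by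
  have h1 := core_lt (i, j)
  have h2 := core_lt (i, j')
  rcases h with h | h | h
  · exact (h1 h).1
  · rcases h' with h' | h' | h'
    · exact (h2 h').1
    · omega
    · omega
  · omega

lemma leafB {i i' j : ℕ} (h : R i j) (h' : R i' j) (hne : i ≠ i') : j < 5 := by
  have h1 := core_lt (i, j)
  have h2 := core_lt (i', j)
  rcases h with h | h | h
  · exact (h1 h).2
  · omega
  · rcases h' with h' | h' | h'
    · exact (h2 h').2
    · omega
    · omega

set_option synthInstance.maxSize 4000 in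
lemma nocyc : ∀ a < 5, ∀ b < 5, R a b → ¬ ∃ c < 5, R c b ∧ c ≠ a ∧ ∃ d < 5, R c d ∧ d ≠ b ∧
    ∃ e < 5, R e d ∧ e ≠ a ∧ e ≠ c ∧ ∃ f < 5, R e f ∧ f ≠ b ∧ f ≠ d ∧
    ∃ g < 5, R g f ∧ g ≠ a ∧ g ≠ c ∧ g ≠ e ∧ ∃ h < 5, R g h ∧ h ≠ b ∧ h ≠ d ∧ h ≠ f ∧
    R a h := by
  decide +kernel

lemma nocyc' {a b c d e f g h : ℕ} (h1 : R a b) (h2 : R c b) (h3 : R c d) (h4 : R e d)
    (h5 : R e f) (h6 : R g f) (h7 : R g h) (h8 : R a h) (n1 : c ≠ a) (n2 : e ≠ a) (n3 : e ≠ c)
    (n4 : g ≠ a) (n5 : g ≠ c) (n6 : g ≠ e) (m1 : d ≠ b) (m2 : f ≠ b) (m3 : f ≠ d) (m4 : h ≠ b)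
    (m5 : h ≠ d) (m6 : h ≠ f) : False :=
  nocyc a (leafA h8 h1 m4) b (leafB h2 h1 n1) h1 ⟨c, leafA h3 h2 m1, h2, n1, d, leafB h4 h3 n3, h3,
    m1, e, leafA h5 h4 m3, h4, n2, n3, f, leafB h6 h5 n6, h5, m2, m3, g, leafA h7 h6 m6, h6, n4,
    n5, n6, h, leafB h7 h8 n4, h7, m4, m5, m6, h8⟩

set_option synthInstance.maxSize 4000 in
lemma paths : ∀ a < 6, ∀ h < 6, ¬ R a h → ∃ b < 5, R a b ∧ b ≠ h ∧ ∃ c < 5, R c b ∧ c ≠ a ∧
    ∃ d < 5, R c d ∧ d ≠ b ∧ d ≠ h ∧ ∃ e < 5, R e d ∧ e ≠ a ∧ e ≠ c ∧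
    ∃ f < 5, R e f ∧ f ≠ b ∧ f ≠ d ∧ f ≠ h ∧ ∃ g < 5, R g f ∧ g ≠ a ∧ g ≠ c ∧ g ≠ e ∧ R g h := by
  decide +kernel

lemma contained {V : Type} (G : SimpleGraph V) (f : Fin 8 → V) (hi : Function.Injective f)
    (ha : ∀ k, G.Adj (f k) (f (k + 1))) : cycleGraph 8 ⊑ G := by
  refine ⟨⟨⟨f, ?_⟩, hi⟩⟩
  intro u v h
  have : ∀ u v : Fin 8, (cycleGraph 8).Adj u v → v = u + 1 ∨ u = v + 1 := by decide
  rcases this u v h with rfl | rfl
  · exact ha u
  · exact (ha v).symm

lemma free (m n : ℕ) : ¬ cycleGraph 8 ⊑ H m n := by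
  rintro ⟨f, hi⟩
  have ha : ∀ k : Fin 8, Ad (f k) (f (k + 1)) := fun k =>
    f.map_adj (v := k) (w := k + 1) (by revert k; decide)
  have hn : ∀ k l : Fin 8, k ≠ l → f k ≠ f l := fun k l h e => h (hi e)
  have h0 : Ad (f 0) (f 1) := ha 0
  have h1 : Ad (f 1) (f 2) := ha 1
  have h2 : Ad (f 2) (f 3) := ha 2
  have h3 : Ad (f 3) (f 4) := ha 3
  have h4 : Ad (f 4) (f 5) := ha 4
  have h5 : Ad (f 5) (f 6) := ha 5
  have h6 : Ad (f 6) (f 7) := ha 6
  have h7 : Ad (f 7) (f 0) := ha 7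
  have n1 := hn 2 0 (by decide); have n2 := hn 4 0 (by decide); have n3 := hn 4 2 (by decide)
  have n4 := hn 6 0 (by decide); have n5 := hn 6 2 (by decide); have n6 := hn 6 4 (by decide)
  have m1 := hn 3 1 (by decide); have m2 := hn 5 1 (by decide); have m3 := hn 5 3 (by decide)
  have m4 := hn 7 1 (by decide); have m5 := hn 7 3 (by decide); have m6 := hn 7 5 (by decide)
  generalize f 0 = x0 at *
  generalize f 1 = x1 at *
  generalize f 2 = x2 at *
  generalize f 3 = x3 at *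
  generalize f 4 = x4 at *
  generalize f 5 = x5 at *
  generalize f 6 = x6 at *
  generalize f 7 = x7 at *
  rcases x0 with x0 | x0 <;> rcases x1 with x1 | x1 <;> try exact h0
  all_goals rcases x2 with x2 | x2 <;> try exact h1
  all_goals rcases x3 with x3 | x3 <;> try exact h2
  all_goals rcases x4 with x4 | x4 <;> try exact h3
  all_goals rcases x5 with x5 | x5 <;> try exact h4
  all_goals rcases x6 with x6 | x6 <;> try exact h5
  all_goals rcases x7 with x7 | x7 <;> try exact h6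
  all_goals simp only [ne_eq, Sum.inl.injEq, Sum.inr.injEq, Fin.ext_iff] at n1 n2 n3 n4 n5 n6 m1 m2 m3 m4 m5 m6
  · exact nocyc' h0 h1 h2 h3 h4 h5 h6 h7 n1 n2 n3 n4 n5 n6 m1 m2 m3 m4 m5 m6
  · exact nocyc' h1 h2 h3 h4 h5 h6 h7 h0 m1 m2 m3 m4 m5 m6 n3 n5 n6 (Ne.symm n1) (Ne.symm n2)
      (Ne.symm n4)

theorem result (m n : ℕ) (hm : 6 ≤ m) (hn : 6 ≤ n) :
    ∃ G : SimpleGraph (Fin m ⊕ Fin n), G ≤ completeBipartiteGraph (Fin m) (Fin n) ∧
      ¬ (cycleGraph (2 * 4)).IsContained G ∧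
      (∀ u v, (completeBipartiteGraph (Fin m) (Fin n)).Adj u v → ¬ G.Adj u v →
        (cycleGraph (2 * 4)).IsContained (G ⊔ edge u v)) ∧
      G.edgeSet.ncard ≤ m + n + 3 := by
  refine ⟨H m n, ?_, free m n, ?_, ?_⟩
  · intro u v h
    cases u <;> cases v <;> first | exact h.elim | simp
  · have key : ∀ (i : Fin m) (j : Fin n), ¬ R i j →
        cycleGraph 8 ⊑ H m n ⊔ edge (.inl i) (.inr j) := by
      intro i j hij
      obtain ⟨b, hb, r1, s1, c, hc, r2, s2, d, hd, r3, s3, s4, e, he, r4, s5, s6, f, hf, r5, s7,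
        s8, s9, g, hg, r6, s10, s11, s12, r7⟩ := paths (min i 5) (by omega) (min j 5) (by omega)
          (by rwa [R_min])
      have r1' : R i b := by rw [← R_min, show min b 5 = b by omega]; exact r1
      have r7' : R g j := by rw [← R_min, show min g 5 = g by omega]; exact r7
      refine contained _ ![.inl i, .inr ⟨b, by omega⟩, .inl ⟨c, by omega⟩, .inr ⟨d, by omega⟩,
        .inl ⟨e, by omega⟩, .inr ⟨f, by omega⟩, .inl ⟨g, by omega⟩, .inr j] ?_ ?_
      · intro k l h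
        fin_cases k <;> fin_cases l <;> simp [Fin.ext_iff] at h ⊢ <;> omega
      · intro k
        fin_cases k
        exacts [Or.inl r1', Or.inl r2, Or.inl r3, Or.inl r4, Or.inl r5, Or.inl r6, Or.inl r7',
          Or.inr (by simp [edge_adj])]
    intro u v h hn
    rcases u with u | u <;> rcases v with v | v
    · simp at h
    · exact key u v hn
    · rw [edge_comm]
      exact key v u hn
    · simp at h
  · let φ : ℕ × ℕ → Sym2 (Fin m ⊕ Fin n) := fun p =>
      s(.inl ⟨p.1 % m, Nat.mod_lt _ (by omega)⟩, .inr ⟨p.2 % n, Nat.mod_lt _ (by omega)⟩)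
    let S : Finset (ℕ × ℕ) := core ∪ (Finset.Ico 5 m).image (fun i => (i, 3)) ∪
      (Finset.Ico 5 n).image (fun j => (0, j))
    have key : ∀ (i : Fin m) (j : Fin n), R i j → s(.inl i, .inr j) ∈ φ '' ↑S := by
      intro i j h
      refine ⟨(i, j), ?_, by simp [φ, Nat.mod_eq_of_lt i.2, Nat.mod_eq_of_lt j.2]⟩
      rcases h with h | h | h
      · simp [S, h]
      · simp [S, h.1, h.2]
      · simp [S, h.1, h.2]
    have hsub : (H m n).edgeSet ⊆ φ '' ↑S := by
      intro e he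
      induction e using Sym2.ind with
      | _ u v =>
        rcases u with u | u <;> rcases v with v | v
        · exact he.elim
        · exact key u v he
        · rw [Sym2.eq_swap]
          exact key v u he
        · exact he.elim
    refine (Set.ncard_le_ncard hsub (Set.toFinite _)).trans
      ((Set.ncard_image_le (Set.toFinite _)).trans ?_)
    rw [Set.ncard_coe_finset]
    have h1 := Finset.card_union_le (core ∪ (Finset.Ico 5 m).image (fun i => (i, 3)))
      ((Finset.Ico 5 n).image (fun j => (0, j)))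
    have h2 := Finset.card_union_le core ((Finset.Ico 5 m).image (fun i => (i, 3)))
    have h3 := Finset.card_image_le (s := Finset.Ico 5 m) (f := fun i => (i, 3))
    have h4 := Finset.card_image_le (s := Finset.Ico 5 n) (f := fun j => (0, j))
    have h5 : core.card = 13 := by decide
    rw [Nat.card_Ico] at h3 h4
    simp only [S]
    omega

end Pool.Agent.Results.MP_7875f2_co.Sat
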